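import Pool.Agent.R591.CS.Spec

/-!
# Avoiding `κ` many functions
-/

set_option autoImplicit false

open Cardinal Set

namespace Pool.Agent.R591.CS

/-- the well order of type `κ` -/
abbrev KK (κ : Cardinal.{0}) : Type := κ.ord.ToType

theorem mk_KK (κ : Cardinal.{0}) : #(KK κ) = κ := by simp [KK]

theorem mk_Iio_KK {κ : Cardinal.{0}} (x : KK κ) : #(Iio x) < κ := Cardinal.mk_Iio_toType_ord_lt x

theorem mk_Iic_KK {κ : Cardinal.{0}} (h0 : ℵ₀ ≤ κ) (x : KK κ) : #(Iic x) < κ := by
  rw [← Iio_insert]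
  refine (mk_insert_le).trans_lt ?_
  exact Cardinal.add_lt_of_lt h0 (mk_Iio_KK x) (one_lt_aleph0.trans_le h0)

/-- if `κ` is a strong limit of countable cofinality, then any `κ` many functions are avoided by
some countable partial function -/
theorem exists_avoid {κ : Cardinal.{0}} (hs : κ.IsStrongLimit) (hc : κ.ord.cof = ℵ₀)
    (G : Set (ℕ × KK κ → Option Bool)) (hG : #G ≤ κ) :
    ∃ y : Fn (ℕ × KK κ), ∀ g ∈ G, ∃ z b, y.1 z = some b ∧ g z ≠ some b := by
  classical
  have h0 : ℵ₀ ≤ κ := hs.aleph0_le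
  obtain ⟨S, hS1, hS2⟩ := Order.exists_cof_eq (α := KK κ)
  rw [Ordinal.cof_toType, hc] at hS2
  obtain ⟨c, hcS⟩ : ∃ c : ℕ → KK κ, range c = S := by
    have h1 : S.Countable := Cardinal.le_aleph0_iff_set_countable.1 hS2.le
    have h2 : S.Nonempty := by
      rw [Set.nonempty_iff_ne_empty]
      intro h
      rw [h, Cardinal.mk_eq_zero] at hS2
      exact Cardinal.aleph0_ne_zero hS2.symm
    obtain ⟨c, hc'⟩ := h1.exists_eq_range h2
    exact ⟨c, hc'.symm⟩
  have hG2 : #G ≤ #(KK κ) := hG.trans (mk_KK κ).ge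
  obtain ⟨ι⟩ := hG2
  let Gn : ℕ → Set G := fun n => {g | ι g ≤ c n}
  have hGn : ∀ n, #(Gn n) < κ := by
    intro n
    refine lt_of_le_of_lt ?_ (mk_Iic_KK h0 (c n))
    exact Cardinal.mk_le_of_injective (f := fun g : Gn n => (⟨ι g.1, g.2⟩ : Iic (c n)))
      fun g g' h => Subtype.ext (ι.injective (congrArg Subtype.val h))
  have hpair : ∀ n, ∃ a b : KK κ, a ≠ b ∧ ∀ g ∈ Gn n, g.1 (n, a) = g.1 (n, b) := by
    intro n
    by_contra hcon
    push Not at hcon
    have hinj : Function.Injective
        (fun (a : KK κ) => {z : Gn n × Bool | z.1.1.1 (n, a) = some z.2}) := by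
      intro a b h
      by_contra hab
      obtain ⟨g, hg, hne⟩ := hcon a b hab
      apply hne
      have h3 : ∀ t, g.1 (n, a) = some t ↔ g.1 (n, b) = some t := fun t =>
        Set.ext_iff.1 h (⟨g, hg⟩, t)
      cases hga : g.1 (n, a) with
      | some t => exact ((h3 t).1 hga).symm
      | none =>
        cases hgb : g.1 (n, b) with
        | none => rfl
        | some t =>
          have := (h3 t).2 hgb
          rw [hga] at this
          simp at this
    have h1 := Cardinal.mk_le_of_injective hinj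
    rw [mk_KK, Cardinal.mk_set, Cardinal.mk_prod, Cardinal.lift_id, Cardinal.lift_id] at h1
    refine absurd h1 (not_le.2 (hs.two_power_lt ?_))
    exact Cardinal.mul_lt_of_lt h0 (hGn n) ((Cardinal.mk_lt_aleph0).trans_le h0)
  choose a b hab hgab using hpair
  refine ⟨⟨fun z => if z.2 = a z.1 then some false else if z.2 = b z.1 then some true else none,
    ?_⟩, ?_⟩
  · refine ((countable_range (fun n => (n, a n))).union (countable_range fun n => (n, b n))).mono ?_
    rintro ⟨n, z⟩ hz
    by_cases h1 : z = a n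
    · exact Or.inl ⟨n, by rw [h1]⟩
    · by_cases h2 : z = b n
      · exact Or.inr ⟨n, by rw [h2]⟩
      · exact absurd (by simp [h1, h2]) hz
  · intro g hg
    obtain ⟨x, hx, hgx⟩ := hS1 (ι ⟨g, hg⟩)
    rw [← hcS] at hx
    obtain ⟨n, rfl⟩ := hx
    have h2 := hgab n ⟨g, hg⟩ hgx
    by_cases h3 : g (n, a n) = some false
    · refine ⟨(n, b n), true, ?_, ?_⟩
      · simp [(hab n).symm]
      · have h4 : g (n, b n) = some false := by
          rw [← h3]
          exact h2.symm
        rw [h4]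
        simp
    · exact ⟨(n, a n), false, by simp, h3⟩

end Pool.Agent.R591.CS
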