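import Pool.Agent.R591.CS.Seq

/-!
# The poset of finite cliques of the generic sequence has small antichains
-/

set_option autoImplicit false

open Cardinal Set

namespace Pool.Agent.R591.CS

section S

variable {W K : Type} (y : W → Fn K)

/-- promise on the left side of a conflict -/
noncomputable def uu (a b : W) : FS K := by
  classical
  exact if h : Conf (y a) (y b) then {(h.choose, h.choose_spec.choose)} else ∅

/-- promise on the right side of a conflict -/
noncomputable def vv (a b : W) : FS K := by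
  classical
  exact if h : Conf (y a) (y b) then {(h.choose, !h.choose_spec.choose)} else ∅

theorem sub_uu (a b : W) : Sub (uu y a b) (y a) := by
  intro z hz
  by_cases h : Conf (y a) (y b)
  · simp only [uu, dif_pos h, Finset.mem_singleton] at hz
    rw [hz]
    exact h.choose_spec.choose_spec.1
  · simp [uu, dif_neg h] at hz

theorem sub_vv (a b : W) : Sub (vv y a b) (y b) := by
  intro z hz
  by_cases h : Conf (y a) (y b)
  · simp only [vv, dif_pos h, Finset.mem_singleton] at hz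
    rw [hz]
    exact h.choose_spec.choose_spec.2
  · simp [vv, dif_neg h] at hz

/-- the promises attached to `a` by all conflicts with members of the list -/
noncomputable def SS (l : List W) (a : W) : FS K := by
  classical
  exact l.toFinset.biUnion fun c => uu y a c ∪ vv y c a

theorem sub_SS (l : List W) (a : W) : Sub (SS y l a) (y a) := by
  classical
  intro z hz
  simp only [SS, Finset.mem_biUnion, Finset.mem_union] at hz
  obtain ⟨c, -, hz | hz⟩ := hz
  · exact sub_uu y a c z hz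
  · exact sub_vv y c a z hz

theorem conf_SS {l : List W} {a b : W} (ha : a ∈ l) (hb : b ∈ l) (h : Conf (y a) (y b)) :
    conf (SS y l a) (SS y l b) := by
  classical
  refine ⟨h.choose, h.choose_spec.choose, ?_, ?_⟩
  · simp only [SS, Finset.mem_biUnion, Finset.mem_union, List.mem_toFinset]
    refine ⟨b, hb, Or.inl ?_⟩
    simp [uu, dif_pos h]
  · simp only [SS, Finset.mem_biUnion, Finset.mem_union, List.mem_toFinset]
    refine ⟨a, ha, Or.inr ?_⟩
    simp [vv, dif_pos h]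

end S

theorem av_of_lt {W K : Type} [LinearOrder W] {R : Set (List (FS K))} (y : W → Fn K) {η : W}
    (hy : ∀ ξ, η < ξ → ∀ l : List W, (∀ a ∈ l, a < ξ) → ∀ T0 T1,
      ∃ z b, (y ξ).1 z = some b ∧ gfun R (l.map y) T0 T1 z ≠ some b) :
    ∀ L : List W, L.Pairwise (· > ·) → (∀ a ∈ L, η < a) → Av R (L.map y) := by
  intro L
  induction L with
  | nil => intro _ _; trivial
  | cons a l ih =>
    intro hL hη
    rw [List.pairwise_cons] at hL
    exact ⟨fun T0 T1 => hy a (hη a List.mem_cons_self) l hL.1 T0 T1,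
      ih hL.2 fun b hb => hη b (List.mem_cons_of_mem _ hb)⟩

theorem clique_cc {W K : Type} [LinearOrder W] {κ : Cardinal.{0}} (h0 : ℵ₀ ≤ κ)
    (hcard : ∀ ξ : W, #(Iic ξ) ≤ κ) (hFS : #(List (FS K)) ≤ κ) (E : W → Set (List (FS K)))
    (hE : Function.Surjective E) (y : W → Fn K)
    (hy : ∀ ξ η, η < ξ → ∀ l : List W, (∀ a ∈ l, a < ξ) → ∀ T0 T1,
      ∃ z b, (y ξ).1 z = some b ∧ gfun (E η) (l.map y) T0 T1 z ≠ some b)
    (𝒜 : Set (Finset W)) (h𝒜 : ∀ F ∈ 𝒜, ∀ a ∈ F, ∀ b ∈ F, a ≠ b → Conf (y a) (y b))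
    (hbig : κ < #𝒜) :
    ∃ F0 ∈ 𝒜, ∃ F1 ∈ 𝒜, F0 ≠ F1 ∧
      ∀ a, (a ∈ F0 ∨ a ∈ F1) → ∀ b, (b ∈ F0 ∨ b ∈ F1) → a ≠ b → Conf (y a) (y b) := by
  classical
  -- fix the cardinality
  obtain ⟨k, -, hk⟩ := pigeon h0 𝒜 hbig (fun F => F.card) ((Cardinal.mk_le_aleph0).trans h0)
  set 𝒜1 : Set (Finset W) := {F | F ∈ 𝒜 ∧ F.card = k} with h𝒜1
  -- the root
  let P : ℕ → Prop := fun n => ∃ r : Finset W, r.card = n ∧ κ < #{F | F ∈ 𝒜1 ∧ r ⊆ F}
  have hP0 : P 0 := by
    refine ⟨∅, rfl, ?_⟩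
    have : {F | F ∈ 𝒜1 ∧ (∅ : Finset W) ⊆ F} = 𝒜1 := by
      ext F
      simp
    rw [this]
    exact hk
  have hPk : ∀ n, P n → n ≤ k := by
    rintro n ⟨r, rfl, hr⟩
    have hne : {F | F ∈ 𝒜1 ∧ r ⊆ F}.Nonempty := by
      rw [Set.nonempty_iff_ne_empty]
      intro h
      rw [h, Cardinal.mk_eq_zero] at hr
      exact absurd hr (not_lt.2 zero_le)
    obtain ⟨F, hF, hrF⟩ := hne
    rw [← hF.2]
    exact Finset.card_le_card hrF
  obtain ⟨r, hr, hrbig⟩ : P (Nat.findGreatest P k) :=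
    Nat.findGreatest_spec (P := P) (Nat.zero_le k) hP0
  have hrmax : ∀ a, a ∉ r → #{F | F ∈ 𝒜1 ∧ insert a r ⊆ F} ≤ κ := by
    intro a ha
    by_contra hcon
    push Not at hcon
    have h1 : P (Nat.findGreatest P k + 1) := ⟨insert a r, by
      rw [Finset.card_insert_of_notMem ha, hr], hcon⟩
    have h2 := Nat.le_findGreatest (hPk _ h1) h1
    omega
  set 𝒜2 : Set (Finset W) := {F | F ∈ 𝒜1 ∧ r ⊆ F} with h𝒜2
  let Lst : Finset W → List W := fun F => (F \ r).sort (· ≥ ·)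
  have hLmem : ∀ F a, a ∈ Lst F ↔ a ∈ F ∧ a ∉ r := fun F a => by
    simp [Lst]
  have hLnd : ∀ F, (Lst F).Nodup := fun F => Finset.sort_nodup _ _
  have hLpw : ∀ F, (Lst F).Pairwise (· > ·) := fun F => (Finset.sortedGT_sort _).pairwise
  have hLlen : ∀ F ∈ 𝒜2, (Lst F).length = k - r.card := by
    intro F hF
    simp only [Lst, Finset.length_sort]
    rw [Finset.card_sdiff_of_subset hF.2, hF.1.2]
  have hkr : 0 < k - r.card := by
    by_contra hcon
    have h1 : 𝒜2 ⊆ {r} := by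
      intro F hF
      have h2 : F.card = k := hF.1.2
      have h3 := Finset.eq_of_subset_of_card_le hF.2 (by omega)
      exact h3.symm
    have h4 : #𝒜2 ≤ 1 := (mk_le_mk_of_subset h1).trans (by simp)
    exact absurd hrbig (not_lt.2 (h4.trans (one_le_aleph0.trans h0)))
  -- fix the promises
  obtain ⟨S, -, hS⟩ := pigeon h0 𝒜2 hrbig (fun F => (Lst F).map (SS y (Lst F)))
    ((mk_set_le _).trans hFS)
  set 𝒜3 : Set (Finset W) := {F | F ∈ 𝒜2 ∧ (Lst F).map (SS y (Lst F)) = S} with h𝒜3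
  let R : Set (List (FS K)) := {s | ∃ F ∈ 𝒜3, List.Forall₂ Sub s ((Lst F).map y)}
  obtain ⟨η, hη⟩ := hE R
  -- a member far out
  obtain ⟨G, hG3, hG⟩ : ∃ G ∈ 𝒜3, ∀ a ∈ Lst G, η < a := by
    by_contra hcon
    push Not at hcon
    apply absurd hS (not_lt.2 _)
    have hsub : 𝒜3 ⊆ ⋃ a : Iic η, {F | F ∈ 𝒜1 ∧ (a : W) ∉ r ∧ insert (a : W) r ⊆ F} := by
      intro F hF
      obtain ⟨a, ha, haη⟩ := hcon F hF
      rw [hLmem] at ha
      exact mem_iUnion.2 ⟨⟨a, haη⟩, hF.1.1, ha.2, Finset.insert_subset ha.1 hF.1.2⟩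
    refine (mk_le_mk_of_subset hsub).trans (mk_iUnion_le' h0 (hcard η) _ fun a => ?_)
    by_cases ha : (a : W) ∈ r
    · have : {F | F ∈ 𝒜1 ∧ (a : W) ∉ r ∧ insert (a : W) r ⊆ F} = ∅ := by
        ext F
        simp [ha]
      rw [this]
      simp
    · have h5 : {F | F ∈ 𝒜1 ∧ (a : W) ∉ r ∧ insert (a : W) r ⊆ F} ⊆
          {F | F ∈ 𝒜1 ∧ insert (a : W) r ⊆ F} := fun F hF => ⟨hF.1, hF.2.2⟩
      exact (mk_le_mk_of_subset h5).trans (hrmax a ha)
  -- apply the iteration
  have hAv : Av R ((Lst G).map y) := by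
    rw [← hη]
    exact av_of_lt y (fun ξ hξ => hy ξ η hξ) (Lst G) (hLpw G) hG
  obtain ⟨U0, U1, hc, hU0, hU1⟩ := iter ((Lst G).map y) [] [] hAv fun s hs =>
    ⟨⟨G, hG3, hs⟩, ⟨G, hG3, hs⟩⟩
  obtain ⟨F0, hF0, hs0⟩ : ∃ F ∈ 𝒜3, List.Forall₂ Sub U0 ((Lst F).map y) := hU0
  obtain ⟨F1, hF1, hs1⟩ : ∃ F ∈ 𝒜3, List.Forall₂ Sub U1 ((Lst F).map y) := hU1
  have hlen0 := hLlen F0 hF0.1
  have hlen1 := hLlen F1 hF1.1
  have hlu0 : U0.length = (Lst F0).length := by
    rw [hs0.length_eq, List.length_map]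
  have hlu1 : U1.length = (Lst F1).length := by
    rw [hs1.length_eq, List.length_map]
  -- conflicts at the same position
  have hsame : ∀ i (h0 : i < (Lst F0).length) (h1 : i < (Lst F1).length),
      Conf (y ((Lst F0)[i])) (y ((Lst F1)[i])) := by
    intro i hi0 hi1
    have h1 := hc.get (i := i) (by rw [hlu0]; exact hi0) (by rw [hlu1]; exact hi1)
    have h2 := hs0.get (i := i) (by rw [hlu0]; exact hi0) (by rw [List.length_map]; exact hi0)
    have h3 := hs1.get (i := i) (by rw [hlu1]; exact hi1) (by rw [List.length_map]; exact hi1)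
    simp only [List.get_eq_getElem, List.getElem_map] at h1 h2 h3
    exact h1.toConf h2 h3
  -- conflicts at different positions
  have hdiff : ∀ i j (h0 : i < (Lst F0).length) (h1 : j < (Lst F1).length), i ≠ j →
      Conf (y ((Lst F0)[i])) (y ((Lst F1)[j])) := by
    intro i j hi hj hij
    have hj' : j < (Lst F0).length := by rw [hlen0, ← hlen1]; exact hj
    have h1 : SS y (Lst F1) ((Lst F1)[j]) = SS y (Lst F0) ((Lst F0)[j]) := by
      have h2 : (Lst F0).map (SS y (Lst F0)) = (Lst F1).map (SS y (Lst F1)) := by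
        rw [hF0.2, hF1.2]
      have h3 := List.getElem_of_eq h2 (i := j) (by rw [List.length_map]; exact hj')
      simp only [List.getElem_map] at h3
      exact h3.symm
    have hne : (Lst F0)[i] ≠ (Lst F0)[j] := by
      intro h
      exact hij ((hLnd F0).getElem_inj_iff.1 h)
    have hm1 : (Lst F0)[i] ∈ Lst F0 := List.getElem_mem hi
    have hm2 : (Lst F0)[j] ∈ Lst F0 := List.getElem_mem hj'
    have h4 : Conf (y (Lst F0)[i]) (y (Lst F0)[j]) :=
      h𝒜 F0 hF0.1.1.1 _ ((hLmem _ _).1 hm1).1 _ ((hLmem _ _).1 hm2).1 hne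
    have h5 := conf_SS y hm1 hm2 h4
    rw [← h1] at h5
    exact h5.toConf (sub_SS y _ _) (sub_SS y _ _)
  have hcross : ∀ a ∈ F0, a ∉ r → ∀ b ∈ F1, b ∉ r → Conf (y a) (y b) := by
    intro a ha har b hb hbr
    obtain ⟨i, hi, rfl⟩ := List.mem_iff_getElem.1 ((hLmem F0 a).2 ⟨ha, har⟩)
    obtain ⟨j, hj, rfl⟩ := List.mem_iff_getElem.1 ((hLmem F1 b).2 ⟨hb, hbr⟩)
    by_cases hij : i = j
    · subst hij
      exact hsame i hi hj
    · exact hdiff i j hi hj hij
  refine ⟨F0, hF0.1.1.1, F1, hF1.1.1.1, ?_, ?_⟩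
  · intro h
    have hpos : 0 < (Lst F0).length := by rw [hlen0]; exact hkr
    have hpos1 : 0 < (Lst F1).length := by rw [hlen1]; exact hkr
    have h1 := hsame 0 hpos hpos1
    have h2 : (Lst F1)[0] = (Lst F0)[0] := by
      have h3 : Lst F1 = Lst F0 := by rw [h]
      exact List.getElem_of_eq h3 _
    rw [h2] at h1
    exact h1.irrefl
  · intro a ha b hb hab
    have hr0 : ∀ c ∈ r, c ∈ F0 := fun c hc => hF0.1.2 hc
    have hr1 : ∀ c ∈ r, c ∈ F1 := fun c hc => hF1.1.2 hc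
    have g0 := h𝒜 F0 hF0.1.1.1
    have g1 := h𝒜 F1 hF1.1.1.1
    by_cases har : a ∈ r
    · rcases hb with hb | hb
      · exact g0 a (hr0 a har) b hb hab
      · exact g1 a (hr1 a har) b hb hab
    · by_cases hbr : b ∈ r
      · rcases ha with ha | ha
        · exact g0 a ha b (hr0 b hbr) hab
        · exact g1 a ha b (hr1 b hbr) hab
      · rcases ha with ha | ha <;> rcases hb with hb | hb
        · exact g0 a ha b hb hab
        · exact hcross a ha har b hb hbr
        · exact (hcross b hb hbr a ha har).symm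
        · exact g1 a ha b hb hab

end Pool.Agent.R591.CS
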