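import Mathlib

/-!
# Cellularity, productive cellularity and density of posets
-/

set_option autoImplicit false

open Cardinal Set

namespace Pool.Agent.R591.CS

/-- `p` and `q` are compatible: they have a common lower bound. -/
def Compat {P : Type} [Preorder P] (p q : P) : Prop := ∃ r, r ≤ p ∧ r ≤ q

/-- `A` is an antichain: its elements are pairwise incompatible. -/
def Anti {P : Type} [Preorder P] (A : Set P) : Prop :=
  ∀ a ∈ A, ∀ b ∈ A, a ≠ b → ¬ Compat a b

/-- The cellularity `c(P)`: the supremum of `ℵ₀` and of all cardinalities of antichains. -/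
noncomputable def cell (P : Type) [Preorder P] : Cardinal :=
  ⨆ A : {A : Set P // Anti A}, max ℵ₀ #A.1

/-- `κ` is in the cellular spectrum of `P`: `κ` is infinite and for every poset `Q`,
`c(Q) ≤ κ` implies `c(P × Q) ≤ κ`. -/
def InSpec (P : Type) [Preorder P] (κ : Cardinal.{0}) : Prop :=
  ℵ₀ ≤ κ ∧ ∀ (Q : Type) [Preorder Q], cell Q ≤ κ → cell (P × Q) ≤ κ

/-- The productive cellularity `pc(P)`: the least element of the spectrum. -/
noncomputable def pc (P : Type) [Preorder P] : Cardinal := sInf {κ | InSpec P κ}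

/-- `D` is dense in `P`. -/
def Dens {P : Type} [Preorder P] (D : Set P) : Prop := ∀ p, ∃ d ∈ D, d ≤ p

/-- The density `d(P)`: the least infinite cardinal of the form `|D|`, `D` dense in `P`. -/
noncomputable def dens (P : Type) [Preorder P] : Cardinal :=
  sInf {κ | ℵ₀ ≤ κ ∧ ∃ D : Set P, Dens D ∧ #D = κ}

theorem cell_le {P : Type} [Preorder P] {κ : Cardinal.{0}} (h0 : ℵ₀ ≤ κ)
    (h : ∀ A : Set P, Anti A → #A ≤ κ) : cell P ≤ κ := by
  have : Nonempty {A : Set P // Anti A} := ⟨⟨∅, fun a ha => absurd ha (notMem_empty a)⟩⟩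
  exact ciSup_le fun A => max_le h0 (h A.1 A.2)

theorem le_cell {P : Type} [Preorder P] {A : Set P} (hA : Anti A) : #A ≤ cell P := by
  refine (le_max_right ℵ₀ _).trans ?_
  exact le_ciSup (f := fun A : {A : Set P // Anti A} => max ℵ₀ #A.1)
    Cardinal.bddAbove_of_small ⟨A, hA⟩

theorem Compat.refl {P : Type} [Preorder P] (p : P) : Compat p p := ⟨p, le_rfl, le_rfl⟩

theorem Compat.symm {P : Type} [Preorder P] {p q : P} (h : Compat p q) : Compat q p := by
  obtain ⟨r, h1, h2⟩ := h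
  exact ⟨r, h2, h1⟩

theorem compat_prod {P Q : Type} [Preorder P] [Preorder Q] {a b : P × Q} :
    Compat a b ↔ Compat a.1 b.1 ∧ Compat a.2 b.2 := by
  constructor
  · rintro ⟨r, h1, h2⟩
    exact ⟨⟨r.1, h1.1, h2.1⟩, ⟨r.2, h1.2, h2.2⟩⟩
  · rintro ⟨⟨r, h1, h2⟩, ⟨s, h3, h4⟩⟩
    exact ⟨(r, s), ⟨h1, h3⟩, ⟨h2, h4⟩⟩

/-- a family indexed by at most `κ` sets of size at most `κ` has a union of size at most `κ` -/
theorem mk_iUnion_le' {ι α : Type} {κ : Cardinal.{0}} (h0 : ℵ₀ ≤ κ) (hι : #ι ≤ κ) (f : ι → Set α)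
    (hf : ∀ i, #(f i) ≤ κ) : #(⋃ i, f i) ≤ κ := by
  refine Cardinal.mk_iUnion_le_sum_mk.trans ?_
  refine (Cardinal.sum_le_sum _ (fun _ => κ) hf).trans ?_
  rw [Cardinal.sum_const']
  exact (mul_le_mul' hι le_rfl).trans (Cardinal.mul_eq_self h0).le

/-- pigeonhole principle -/
theorem pigeon {α β : Type} {κ : Cardinal.{0}} (h0 : ℵ₀ ≤ κ) (A : Set α) (hA : κ < #A) (f : α → β)
    (hβ : #(f '' A) ≤ κ) : ∃ b ∈ f '' A, κ < #{a | a ∈ A ∧ f a = b} := by
  by_contra hcon
  push Not at hcon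
  apply absurd hA (not_lt.2 _)
  have hsub : A ⊆ ⋃ b : f '' A, {a | a ∈ A ∧ f a = b} := fun a ha =>
    mem_iUnion.2 ⟨⟨f a, a, ha, rfl⟩, ha, rfl⟩
  exact (mk_le_mk_of_subset hsub).trans (mk_iUnion_le' h0 hβ _ fun b => hcon b.1 b.2)

/-- cardinals at least the size of a dense set are in the spectrum -/
theorem inSpec_of_dens {P : Type} [Preorder P] {κ : Cardinal.{0}} (h0 : ℵ₀ ≤ κ) {D : Set P}
    (hD : Dens D) (hc : #D ≤ κ) : InSpec P κ := by
  refine ⟨h0, fun Q _ hQ => cell_le h0 fun A hA => ?_⟩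
  by_contra hcon
  push Not at hcon
  choose d hd1 hd2 using hD
  obtain ⟨b, -, hb⟩ := pigeon h0 A hcon (fun a => d a.1)
    ((mk_le_mk_of_subset (by rintro _ ⟨a, -, rfl⟩; exact hd1 _)).trans hc)
  apply absurd hb (not_lt.2 _)
  set B : Set (P × Q) := {a | a ∈ A ∧ d a.1 = b} with hB
  have hinj : InjOn (fun a : P × Q => a.2) B := by
    intro a ha a' ha' h
    by_contra hne
    refine hA a ha.1 a' ha'.1 hne (compat_prod.2 ⟨⟨b, ?_, ?_⟩, ?_⟩)
    · rw [← ha.2]; exact hd2 _
    · rw [← ha'.2]; exact hd2 _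
    · have h2 : a.2 = a'.2 := h
      rw [h2]
      exact Compat.refl _
  have hanti : Anti ((fun a : P × Q => a.2) '' B) := by
    rintro _ ⟨a, ha, rfl⟩ _ ⟨a', ha', rfl⟩ hne hcomp
    refine hA a ha.1 a' ha'.1 (fun e => hne (by rw [e])) (compat_prod.2 ⟨⟨b, ?_, ?_⟩, hcomp⟩)
    · rw [← ha.2]; exact hd2 _
    · rw [← ha'.2]; exact hd2 _
  calc #B = #((fun a : P × Q => a.2) '' B) := (Cardinal.mk_image_eq_of_injOn _ _ hinj).symm
    _ ≤ cell Q := le_cell hanti
    _ ≤ κ := hQ

theorem lt_dens_of_not_inSpec {P : Type} [Preorder P] [Infinite P] {κ : Cardinal.{0}} (h0 : ℵ₀ ≤ κ)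
    (h : ¬ InSpec P κ) : κ < dens P := by
  by_contra hcon
  push Not at hcon
  have hne : {κ | ℵ₀ ≤ κ ∧ ∃ D : Set P, Dens D ∧ #D = κ}.Nonempty :=
    ⟨#P, aleph0_le_mk P, univ, fun p => ⟨p, mem_univ _, le_rfl⟩, mk_univ⟩
  obtain ⟨-, D, hD, hc⟩ := csInf_mem hne
  exact h (inSpec_of_dens h0 hD (hc.le.trans hcon))

theorem pc_le {P : Type} [Preorder P] {κ : Cardinal.{0}} (h : InSpec P κ) : pc P ≤ κ :=
  csInf_le' h

/-- Countable partial functions from `K` to `{0, 1}`, given as functions to `Option Bool`. -/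
def Fn (K : Type) : Type := {p : K → Option Bool // {x | p x ≠ none}.Countable}

/-- `p ≤ q` when `p` extends `q`. -/
instance (K : Type) : PartialOrder (Fn K) where
  le p q := ∀ x b, q.1 x = some b → p.1 x = some b
  le_refl p x b h := h
  le_trans p q r h1 h2 x b h := h1 x b (h2 x b h)
  le_antisymm p q h1 h2 := by
    apply Subtype.ext
    funext x
    cases hq : q.1 x with
    | some b => exact h1 x b hq
    | none =>
      cases hp : p.1 x with
      | none => rfl
      | some b =>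
        have := h2 x b hp
        rw [hq] at this
        exact absurd this (by simp)

/-- the domain -/
def Fn.dom {K : Type} (p : Fn K) : Set K := {x | p.1 x ≠ none}

theorem Fn.compat {K : Type} {p q : Fn K}
    (h : ∀ x b c, p.1 x = some b → q.1 x = some c → b = c) : Compat p q := by
  classical
  refine ⟨⟨fun x => if p.1 x = none then q.1 x else p.1 x, ?_⟩, ?_, ?_⟩
  · refine (p.2.union q.2).mono ?_
    intro x hx
    by_cases h1 : p.1 x = none
    · right
      simpa [h1] using hx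
    · exact Or.inl h1
  · intro x b hb
    simp [hb]
  · intro x c hc
    by_cases h1 : p.1 x = none
    · simp [h1, hc]
    · obtain ⟨b, hb⟩ := Option.ne_none_iff_exists'.1 h1
      simp only [hb, reduceCtorEq, if_false]
      rw [h x b c hb hc]

theorem Fn.conflict {K : Type} {p q : Fn K} (h : Compat p q) {x : K} {b c : Bool}
    (hb : p.1 x = some b) (hc : q.1 x = some c) : b = c := by
  obtain ⟨r, h1, h2⟩ := h
  have h3 := h1 x b hb
  have h4 := h2 x c hc
  rw [h3] at h4
  exact Option.some_injective _ h4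

end Pool.Agent.R591.CS
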