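import Pool.Agent.R591.CS.Cliques

/-!
# The spectrum of the poset of countable partial functions
-/

set_option autoImplicit false

open Cardinal Set Ordinal

namespace Pool.Agent.R591.CS

/-- finite cliques of conflicting members of the sequence -/
def CQ {W K : Type} (y : W → Fn K) : Type :=
  {F : Finset W // ∀ a ∈ F, ∀ b ∈ F, a ≠ b → Conf (y a) (y b)}

instance {W K : Type} (y : W → Fn K) : PartialOrder (CQ y) where
  le F G := G.1 ⊆ F.1
  le_refl F := Finset.Subset.refl _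
  le_trans F G H h1 h2 := h2.trans h1
  le_antisymm F G h1 h2 := Subtype.ext (h2.antisymm h1)

theorem exists_fn_infinite (K : Type) [Infinite K] : Infinite (Fn K) := by
  classical
  refine Infinite.of_injective (fun k : K => (⟨fun x => if x = k then some true else none, ?_⟩ :
    Fn K)) ?_
  · refine (countable_singleton k).mono ?_
    intro x hx
    by_contra h
    exact hx (by simp [show x ≠ k from h])
  · intro k l h
    have h2 := congrFun (congrArg Subtype.val h) k
    by_contra hkl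
    simp [hkl] at h2

theorem main {κ : Cardinal.{0}} (hs : κ.IsStrongLimit) (hc : κ.ord.cof = ℵ₀)
    (h2 : 2 ^ κ = Order.succ κ) : ∃ (Q : Type) (_ : PartialOrder Q),
      cell Q ≤ κ ∧ κ < cell (Fn (ℕ × κ.ord.ToType) × Q) := by
  have h0 : ℵ₀ ≤ κ := hs.aleph0_le
  have h0' : ℵ₀ ≤ Order.succ κ := h0.trans (Order.le_succ κ)
  have hcard : #(KK (Order.succ κ)) = #(Set (List (FS (ℕ × KK κ)))) := by
    rw [mk_KK, Cardinal.mk_set, (mk_FS h0).2, h2]
  obtain ⟨e⟩ := Cardinal.eq.1 hcard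
  obtain ⟨y, hy⟩ := exists_seq hs hc e
  refine ⟨CQ y, inferInstance, ?_, ?_⟩
  · refine cell_le h0 fun A hA => ?_
    by_contra hcon
    push Not at hcon
    have hbig : κ < #((Subtype.val : CQ y → Finset (KK (Order.succ κ))) '' A) := by
      have h3 : #((Subtype.val : CQ y → Finset (KK (Order.succ κ))) '' A) = #A :=
        Cardinal.mk_image_eq Subtype.val_injective
      rw [h3]
      exact hcon
    obtain ⟨F0, ⟨G0, hG0, rfl⟩, F1, ⟨G1, hG1, rfl⟩, hne, hcl⟩ :=
      clique_cc h0 (fun ξ => Order.lt_succ_iff.1 (mk_Iic_KK h0' ξ)) (mk_FS h0).2.le e e.surjective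
        y hy _ (by rintro _ ⟨G, -, rfl⟩; exact G.2) hbig
    classical
    refine hA G0 hG0 G1 hG1 (fun h => hne (by rw [h]))
      ⟨⟨G0.1 ∪ G1.1, fun a ha b hb => hcl a (Finset.mem_union.1 ha) b (Finset.mem_union.1 hb)⟩,
        Finset.subset_union_left, Finset.subset_union_right⟩
  · classical
    let p : KK (Order.succ κ) → Fn (ℕ × KK κ) × CQ y := fun ξ => (y ξ, ⟨{ξ}, by
      intro a ha b hb hab
      rw [Finset.mem_singleton] at ha hb
      exact absurd (ha.trans hb.symm) hab⟩)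
    have hinj : Function.Injective p := by
      intro ξ η h
      have h3 : ({ξ} : Finset (KK (Order.succ κ))) = {η} := congrArg (fun q => q.2.1) h
      exact Finset.singleton_injective h3
    have hanti : Anti (range p) := by
      rintro _ ⟨ξ, rfl⟩ _ ⟨η, rfl⟩ hne hcomp
      obtain ⟨h3, G, h4, h5⟩ := compat_prod.1 hcomp
      have h6 : ξ ∈ G.1 := h4 (Finset.mem_singleton_self ξ)
      have h7 : η ∈ G.1 := h5 (Finset.mem_singleton_self η)
      exact (G.2 ξ h6 η h7 fun h => hne (by rw [h])).not_compat h3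
    calc κ < Order.succ κ := Order.lt_succ κ
      _ = #(range p) := by
        rw [Cardinal.mk_range_eq p hinj, mk_KK]
      _ ≤ _ := le_cell hanti

theorem fn_counterexample {κ : Cardinal.{0}} (hs : κ.IsStrongLimit) (hω : ℵ₀ < κ)
    (hc : κ.ord.cof = ℵ₀) (h2 : 2 ^ κ = Order.succ κ) :
    pc (Fn (ℕ × κ.ord.ToType)) ≤ 𝔠 ∧ 𝔠 < κ ∧ κ < dens (Fn (ℕ × κ.ord.ToType)) ∧
      ¬ InSpec (Fn (ℕ × κ.ord.ToType)) κ := by
  have h0 : ℵ₀ ≤ κ := hω.le
  obtain ⟨Q, _, hQ1, hQ2⟩ := main hs hc h2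
  have hns : ¬ InSpec (Fn (ℕ × κ.ord.ToType)) κ := fun h => absurd (h.2 Q hQ1) (not_le.2 hQ2)
  have hinf : Infinite (ℕ × κ.ord.ToType) := by
    have : Nonempty κ.ord.ToType := by
      rw [← Cardinal.mk_ne_zero_iff, show #κ.ord.ToType = κ from mk_KK κ]
      exact (aleph0_pos.trans_le h0).ne'
    exact Prod.infinite_of_left
  have := exists_fn_infinite (ℕ × κ.ord.ToType)
  refine ⟨pc_le (inSpec_fn _), ?_, lt_dens_of_not_inSpec h0 hns, hns⟩
  rw [← Cardinal.two_power_aleph0]
  exact hs.isStrongPrelimit hω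

theorem beth_omega_facts : (ℶ_ ω).IsStrongLimit ∧ ℵ₀ < ℶ_ ω ∧ (ℶ_ ω).ord.cof = ℵ₀ := by
  refine ⟨?_, ?_, ?_⟩
  · rw [isStrongLimit_beth]
    exact isSuccLimit_omega0.isSuccPrelimit
  · rw [← beth_zero]
    exact beth_lt_beth.2 omega0_pos
  · have h := cof_map_of_isNormal (isNormal_ord.comp isNormal_beth) isSuccLimit_omega0
    rw [cof_omega0] at h
    exact h

end Pool.Agent.R591.CS
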