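import Pool.Agent.R591.CS.Avoid

/-!
# A generic sequence of countable partial functions
-/

set_option autoImplicit false

open Cardinal Set

namespace Pool.Agent.R591.CS

/-- finite sets of promises -/
abbrev FS (K : Type) : Type := Finset (K × Bool)

/-- the finite set `u` is part of (the graph of) `y` -/
def Sub {K : Type} (u : FS K) (y : Fn K) : Prop := ∀ z ∈ u, y.1 z.1 = some z.2

/-- conflicting finite sets -/
def conf {K : Type} (u v : FS K) : Prop := ∃ x b, (x, b) ∈ u ∧ (x, !b) ∈ v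

/-- conflicting partial functions -/
def Conf {K : Type} (p q : Fn K) : Prop := ∃ x b, p.1 x = some b ∧ q.1 x = some (!b)

theorem Conf.symm {K : Type} {p q : Fn K} (h : Conf p q) : Conf q p := by
  obtain ⟨x, b, h1, h2⟩ := h
  exact ⟨x, !b, h2, by simpa using h1⟩

theorem Conf.irrefl {K : Type} {p : Fn K} (h : Conf p p) : False := by
  obtain ⟨x, b, h1, h2⟩ := h
  rw [h1] at h2
  cases b <;> simp at h2

theorem Conf.not_compat {K : Type} {p q : Fn K} (h : Conf p q) : ¬ Compat p q := by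
  intro hc
  obtain ⟨x, b, h1, h2⟩ := h
  have := Fn.conflict hc h1 h2
  cases b <;> simp at this

theorem conf.toConf {K : Type} {u v : FS K} {p q : Fn K} (h : conf u v) (hu : Sub u p)
    (hv : Sub v q) : Conf p q := by
  obtain ⟨x, b, h1, h2⟩ := h
  exact ⟨x, b, hu _ h1, hv _ h2⟩

/-- the relevant finite sets -/
def CC {K : Type} (R : Set (List (FS K))) (l : List (Fn K)) (T0 T1 : List (FS K)) (u : FS K) :
    Prop := ∀ s, List.Forall₂ Sub s l → T0 ++ u :: s ∈ R ∧ T1 ++ u :: s ∈ R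

/-- the function to be avoided -/
noncomputable def gfun {K : Type} (R : Set (List (FS K))) (l : List (Fn K))
    (T0 T1 : List (FS K)) : K → Option Bool := by
  classical
  exact fun z => if ∃ u, CC R l T0 T1 u ∧ (z, true) ∈ u then some true
    else if ∃ u, CC R l T0 T1 u ∧ (z, false) ∈ u then some false else none

theorem step {K : Type} {R : Set (List (FS K))} {l : List (Fn K)} {T0 T1 : List (FS K)} {y : Fn K}
    (hav : ∃ z b, y.1 z = some b ∧ gfun R l T0 T1 z ≠ some b)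
    (hH : ∀ s, List.Forall₂ Sub s (y :: l) → T0 ++ s ∈ R ∧ T1 ++ s ∈ R) :
    ∃ u0 u1, conf u0 u1 ∧
      ∀ s, List.Forall₂ Sub s l → (T0 ++ [u0]) ++ s ∈ R ∧ (T1 ++ [u1]) ++ s ∈ R := by
  classical
  by_contra hcon
  push Not at hcon
  have hlink : ∀ u0 u1, CC R l T0 T1 u0 → CC R l T0 T1 u1 → ¬ conf u0 u1 := by
    intro u0 u1 h0 h1 hc
    obtain ⟨s, hs, h2⟩ := hcon u0 u1 hc
    have h3 := (h0 s hs).1
    have h4 := (h1 s hs).2
    apply h2
    · simpa using h3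
    · simpa using h4
  obtain ⟨z, b, hz, hne⟩ := hav
  have hCC : CC R l T0 T1 {(z, b)} := by
    intro s hs
    refine hH _ (List.Forall₂.cons ?_ hs)
    intro w hw
    rw [Finset.mem_singleton] at hw
    rw [hw]
    exact hz
  apply hne
  cases b with
  | true =>
    have h1 : ∃ u, CC R l T0 T1 u ∧ (z, true) ∈ u := ⟨_, hCC, Finset.mem_singleton_self _⟩
    simp only [gfun, if_pos h1]
  | false =>
    have h1 : ¬ ∃ u, CC R l T0 T1 u ∧ (z, true) ∈ u := by
      rintro ⟨u, hu, hzu⟩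
      exact hlink u _ hu hCC ⟨z, true, hzu, by simp⟩
    have h2 : ∃ u, CC R l T0 T1 u ∧ (z, false) ∈ u := ⟨_, hCC, Finset.mem_singleton_self _⟩
    simp only [gfun, if_neg h1, if_pos h2]

/-- all entries of the list avoid the functions defined from `R` and the later entries -/
def Av {K : Type} (R : Set (List (FS K))) : List (Fn K) → Prop
  | [] => True
  | y :: l => (∀ T0 T1, ∃ z b, y.1 z = some b ∧ gfun R l T0 T1 z ≠ some b) ∧ Av R l

theorem iter {K : Type} {R : Set (List (FS K))} : ∀ (L : List (Fn K)) (T0 T1 : List (FS K)),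
    Av R L → (∀ s, List.Forall₂ Sub s L → T0 ++ s ∈ R ∧ T1 ++ s ∈ R) →
    ∃ U0 U1, List.Forall₂ conf U0 U1 ∧ T0 ++ U0 ∈ R ∧ T1 ++ U1 ∈ R := by
  intro L
  induction L with
  | nil =>
    intro T0 T1 _ hH
    exact ⟨[], [], List.Forall₂.nil, (hH [] List.Forall₂.nil).1, (hH [] List.Forall₂.nil).2⟩
  | cons y l ih =>
    intro T0 T1 hA hH
    obtain ⟨u0, u1, hc, h2⟩ := step (hA.1 T0 T1) hH
    obtain ⟨U0, U1, h3, h4, h5⟩ := ih (T0 ++ [u0]) (T1 ++ [u1]) hA.2 h2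
    refine ⟨u0 :: U0, u1 :: U1, List.Forall₂.cons hc h3, ?_, ?_⟩
    · simpa using h4
    · simpa using h5

theorem mk_FS {κ : Cardinal.{0}} (h0 : ℵ₀ ≤ κ) : #(FS (ℕ × KK κ)) = κ ∧
    #(List (FS (ℕ × KK κ))) = κ := by
  have h1 : #((ℕ × KK κ) × Bool) = κ := by
    rw [Cardinal.mk_prod, Cardinal.mk_prod, mk_KK]
    simp only [Cardinal.lift_id, Cardinal.mk_nat]
    rw [Cardinal.aleph0_mul_eq h0]
    exact Cardinal.mul_eq_left h0 ((Cardinal.mk_le_aleph0).trans h0) (by simp)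
  have i1 : Infinite ((ℕ × KK κ) × Bool) := Cardinal.infinite_iff.2 (by rw [h1]; exact h0)
  have h2 : #(FS (ℕ × KK κ)) = κ := by
    rw [Cardinal.mk_finset_of_infinite, h1]
  have i2 : Infinite (FS (ℕ × KK κ)) := Cardinal.infinite_iff.2 (by rw [h2]; exact h0)
  exact ⟨h2, by rw [Cardinal.mk_list_eq_mk, h2]⟩

theorem exists_rec {W F : Type} [LinearOrder W] [WellFoundedLT W]
    (Good : (ξ : W) → (∀ η, η < ξ → F) → F → Prop) (h : ∀ ξ ih, ∃ f, Good ξ ih f) :
    ∃ y : W → F, ∀ ξ, Good ξ (fun η _ => y η) (y ξ) := by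
  let y : W → F := WellFounded.fix (C := fun _ => F) (wellFounded_lt (α := W))
    fun ξ ih => (h ξ ih).choose
  have hy : ∀ ξ, y ξ = (h ξ fun η _ => y η).choose := fun ξ => WellFounded.fix_eq _ _ _
  refine ⟨y, fun ξ => ?_⟩
  have h1 := (h ξ fun η _ => y η).choose_spec
  rw [← hy ξ] at h1
  exact h1

theorem exists_seq_aux {W K : Type} [LinearOrder W] [WellFoundedLT W] {κ : Cardinal.{0}}
    (h0 : ℵ₀ ≤ κ) (hcard : ∀ ξ : W, #(Iio ξ) ≤ κ) (hFS : #(List (FS K)) ≤ κ)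
    (hav : ∀ G : Set (K → Option Bool), #G ≤ κ → ∃ y : Fn K, ∀ g ∈ G, ∃ z b, y.1 z = some b ∧
      g z ≠ some b) (E : W → Set (List (FS K))) :
    ∃ y : W → Fn K, ∀ ξ η, η < ξ → ∀ l : List W, (∀ a ∈ l, a < ξ) → ∀ T0 T1,
        ∃ z b, (y ξ).1 z = some b ∧ gfun (E η) (l.map y) T0 T1 z ≠ some b := by
  have hlist : ∀ ξ : W, #(List (Iio ξ)) ≤ κ := fun ξ =>
    (Cardinal.mk_list_le_max _).trans (max_le h0 (hcard ξ))
  let Bad : ∀ ξ : W, (∀ η, η < ξ → Fn K) → Set (K → Option Bool) := fun ξ ih =>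
    range fun p : (Iio ξ × List (Iio ξ)) × (List (FS K) × List (FS K)) =>
      gfun (E p.1.1) (p.1.2.map fun a => ih a.1 a.2) p.2.1 p.2.2
  have hBad : ∀ ξ ih, #(Bad ξ ih) ≤ κ := by
    intro ξ ih
    refine Cardinal.mk_range_le.trans ?_
    rw [Cardinal.mk_prod, Cardinal.mk_prod, Cardinal.mk_prod]
    simp only [Cardinal.lift_id]
    calc #(Iio ξ) * #(List (Iio ξ)) * (#(List (FS K)) * #(List (FS K))) ≤ κ * κ * (κ * κ) :=
          mul_le_mul' (mul_le_mul' (hcard ξ) (hlist ξ)) (mul_le_mul' hFS hFS)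
      _ = κ := by rw [Cardinal.mul_eq_self h0, Cardinal.mul_eq_self h0]
  obtain ⟨y, hy⟩ := exists_rec (W := W) (F := Fn K) (fun ξ ih f => ∀ g ∈ Bad ξ ih, ∃ z b,
    f.1 z = some b ∧ g z ≠ some b) (fun ξ ih => hav _ (hBad ξ ih))
  refine ⟨y, ?_⟩
  intro ξ η hη l hl T0 T1
  obtain ⟨l', hl'⟩ : ∃ l' : List (Iio ξ), l'.map Subtype.val = l := by
    refine ⟨l.attach.map fun a => ⟨a.1, hl a.1 a.2⟩, ?_⟩
    rw [List.map_map]
    exact List.attach_map_subtype_val l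
  refine hy ξ _ ⟨((⟨η, hη⟩, l'), (T0, T1)), ?_⟩
  have h2 : (l'.map fun a => y a.1) = l.map y := by
    rw [← hl', List.map_map]
    rfl
  exact congrArg (fun m => gfun (E η) m T0 T1) h2

/-- the generic sequence -/
theorem exists_seq {κ : Cardinal.{0}} (hs : κ.IsStrongLimit) (hc : κ.ord.cof = ℵ₀)
    (E : KK (Order.succ κ) → Set (List (FS (ℕ × KK κ)))) :
    ∃ y : KK (Order.succ κ) → Fn (ℕ × KK κ), ∀ ξ η, η < ξ →
      ∀ l : List (KK (Order.succ κ)), (∀ a ∈ l, a < ξ) → ∀ T0 T1,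
        ∃ z b, (y ξ).1 z = some b ∧ gfun (E η) (l.map y) T0 T1 z ≠ some b :=
  exists_seq_aux hs.aleph0_le (fun ξ => Order.lt_succ_iff.1 (mk_Iio_KK ξ))
    (mk_FS hs.aleph0_le).2.le (exists_avoid hs hc) E

end Pool.Agent.R591.CS
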