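import Pool.Agent.R591.CS.Defs
import Pool.Agent.R591.BT.Stat

/-!
# The continuum is in the spectrum of the poset of countable partial functions
-/

set_option autoImplicit false

open Cardinal Set

namespace Pool.Agent.R591.CS

/-- restriction of a countable partial function -/
noncomputable def Fn.restr {K : Type} (p : Fn K) (D : Set K) : Fn K := by
  classical
  exact ⟨fun x => if x ∈ D then p.1 x else none, p.2.mono fun x hx => by
    by_cases h : x ∈ D
    · simpa [h] using hx
    · simp [h] at hx⟩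

theorem Fn.restr_apply {K : Type} (p : Fn K) {D : Set K} {x : K} (h : x ∈ D) :
    (p.restr D).1 x = p.1 x := by
  simp [Fn.restr, h]

theorem Fn.restr_none {K : Type} (p : Fn K) {D : Set K} {x : K} (h : x ∉ D) :
    (p.restr D).1 x = none := by
  simp [Fn.restr, h]

theorem Fn.le_restr {K : Type} (p : Fn K) (D : Set K) : p ≤ p.restr D := by
  intro x b hb
  by_cases h : x ∈ D
  · rwa [Fn.restr_apply p h] at hb
  · rw [Fn.restr_none p h] at hb
    simp at hb

theorem Fn.dom_restr {K : Type} (p : Fn K) (D : Set K) : (p.restr D).dom ⊆ D := by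
  intro x hx
  by_contra h
  exact hx (Fn.restr_none p h)

/-- there are at most continuum many countable partial functions on a set of size at most the
continuum -/
theorem mk_fn_le {K : Type} (D : Set K) (hD : #D ≤ 𝔠) : #{r : Fn K // r.dom ⊆ D} ≤ 𝔠 := by
  let S : Set (K × Bool) := D ×ˢ Set.univ
  have hS : #S ≤ 𝔠 := by
    have h1 : #S = #D * #(Set.univ : Set Bool) := by
      rw [← Cardinal.mk_setProd]
    rw [h1]
    refine (mul_le_mul' hD ((Cardinal.mk_le_aleph0).trans Cardinal.aleph0_le_continuum)).trans ?_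
    exact (Cardinal.mul_eq_self Cardinal.aleph0_le_continuum).le
  have h2 : #{r : Fn K // r.dom ⊆ D} ≤ #{t : Set (K × Bool) // t ⊆ S ∧ #t ≤ ℵ₀} := by
    refine Cardinal.mk_le_of_injective (f := fun r => ⟨{z | r.1.1 z.1 = some z.2}, ?_, ?_⟩) ?_
    · rintro ⟨x, b⟩ hz
      refine ⟨r.2 ?_, mem_univ _⟩
      change r.1.1 x ≠ none
      have hz' : r.1.1 x = some b := hz
      rw [hz']
      simp
    · rw [Cardinal.le_aleph0_iff_set_countable]
      have hc : (r.1.dom ×ˢ (univ : Set Bool)).Countable := r.1.2.prod (to_countable _)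
      refine hc.mono ?_
      rintro ⟨x, b⟩ hz
      refine ⟨?_, mem_univ _⟩
      change r.1.1 x ≠ none
      have hz' : r.1.1 x = some b := hz
      rw [hz']
      simp
    · intro r s h
      apply Subtype.ext
      apply Subtype.ext
      funext x
      have h3 : ∀ b, r.1.1 x = some b ↔ s.1.1 x = some b := by
        intro b
        have h4 := congrArg Subtype.val h
        exact Set.ext_iff.1 h4 (x, b)
      cases hr : r.1.1 x with
      | some b => exact ((h3 b).1 hr).symm
      | none =>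
        cases hs : s.1.1 x with
        | none => rfl
        | some b =>
          have := (h3 b).2 hs
          rw [hr] at this
          simp at this
  refine h2.trans ((Cardinal.mk_bounded_subset_le S ℵ₀).trans ?_)
  calc (max #S ℵ₀) ^ ℵ₀ ≤ 𝔠 ^ ℵ₀ :=
        Cardinal.power_le_power_right (max_le hS Cardinal.aleph0_le_continuum)
    _ = 𝔠 := Cardinal.continuum_power_aleph0

/-- **The continuum is in the spectrum of `Fn K`.** -/
theorem inSpec_fn (K : Type) : InSpec (Fn K) 𝔠 := by
  refine ⟨Cardinal.aleph0_le_continuum, fun Q _ hQ =>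
    cell_le Cardinal.aleph0_le_continuum fun A hA => ?_⟩
  -- maximal subfamilies with pairwise incompatible second coordinates
  have hM : ∀ r : Fn K, ∃ M : Set (Fn K × Q), M ⊆ {a | a ∈ A ∧ a.1 ≤ r} ∧ #M ≤ 𝔠 ∧
      ∀ a ∈ A, a.1 ≤ r → ∃ b ∈ M, Compat a.2 b.2 := by
    intro r
    let F : Set (Set (Fn K × Q)) := {M | M ⊆ {a | a ∈ A ∧ a.1 ≤ r} ∧
      ∀ a ∈ M, ∀ b ∈ M, a ≠ b → ¬ Compat a.2 b.2}
    obtain ⟨M, hMmax⟩ := zorn_subset F (by
      intro c hc hchain
      refine ⟨⋃₀ c, ⟨?_, ?_⟩, fun s hs => subset_sUnion_of_mem hs⟩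
      · exact sUnion_subset fun s hs => (hc hs).1
      · rintro a ⟨s, hs, ha⟩ b ⟨t, ht, hb⟩ hab
        rcases hchain.total hs ht with h | h
        · exact (hc ht).2 a (h ha) b hb hab
        · exact (hc hs).2 a ha b (h hb) hab)
    have hMF : M ∈ F := hMmax.prop
    refine ⟨M, hMF.1, ?_, ?_⟩
    · have hinj : InjOn (fun a : Fn K × Q => a.2) M := by
        intro a ha b hb h
        by_contra hne
        refine hMF.2 a ha b hb hne ?_
        have h2 : a.2 = b.2 := h
        rw [h2]
        exact Compat.refl _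
      have hanti : Anti ((fun a : Fn K × Q => a.2) '' M) := by
        rintro _ ⟨a, ha, rfl⟩ _ ⟨b, hb, rfl⟩ hne
        exact hMF.2 a ha b hb fun e => hne (by rw [e])
      calc #M = #((fun a : Fn K × Q => a.2) '' M) := (Cardinal.mk_image_eq_of_injOn _ _ hinj).symm
        _ ≤ cell Q := le_cell hanti
        _ ≤ 𝔠 := hQ
    · intro a ha har
      by_contra hcon
      push Not at hcon
      have haM : a ∉ M := fun h => hcon a h (Compat.refl _)
      have : insert a M ∈ F := by
        refine ⟨?_, ?_⟩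
        · rintro b (rfl | hb)
          · exact ⟨ha, har⟩
          · exact hMF.1 hb
        · rintro b (rfl | hb) c (rfl | hc) hbc
          · exact absurd rfl hbc
          · exact hcon c hc
          · exact fun h => hcon b hb h.symm
          · exact hMF.2 b hb c hc hbc
      exact haM (hMmax.le_of_ge this (subset_insert a M) (mem_insert a M))
  choose M hM1 hM2 hM3 using hM
  -- the closure
  let Φ : Set K → Set K := fun E => E ∪ ⋃ r : {r : Fn K // r.dom ⊆ E}, ⋃ b : M r.1, b.1.1.dom
  have hΦ : ∀ E : Set K, #E ≤ 𝔠 → #(Φ E) ≤ 𝔠 := by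
    intro E hE
    have h1 : #(⋃ r : {r : Fn K // r.dom ⊆ E}, ⋃ b : M r.1, b.1.1.dom) ≤ 𝔠 :=
      mk_iUnion_le' Cardinal.aleph0_le_continuum (mk_fn_le E hE) _ fun r =>
        mk_iUnion_le' Cardinal.aleph0_le_continuum (hM2 r.1) _ fun b =>
          (b.1.1.2.le_aleph0).trans Cardinal.aleph0_le_continuum
    refine (mk_union_le _ _).trans ((add_le_add hE h1).trans ?_)
    exact (Cardinal.add_eq_self Cardinal.aleph0_le_continuum).le
  let W := BT.W
  let D : W → Set K := WellFounded.fix (C := fun _ => Set K) (wellFounded_lt (α := W))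
    fun i ih => ⋃ j : {j : W // j < i}, Φ (ih j.1 j.2)
  have hDeq : ∀ i, D i = ⋃ j : {j : W // j < i}, Φ (D j.1) := fun i =>
    WellFounded.fix_eq _ _ _
  have hWle : ∀ i : W, #{j : W // j < i} ≤ 𝔠 := by
    intro i
    have h1 : #{j : W // j < i} ≤ ℵ₀ := (BT.W_Iio i).le_aleph0
    exact h1.trans Cardinal.aleph0_le_continuum
  have hDc : ∀ i, #(D i) ≤ 𝔠 := by
    intro i
    induction i using WellFoundedLT.induction with
    | ind i ih =>
      rw [hDeq i]
      exact mk_iUnion_le' Cardinal.aleph0_le_continuum (hWle i) _ fun j => hΦ _ (ih j.1 j.2)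
  have hDmono : ∀ i j, i < j → Φ (D i) ⊆ D j := by
    intro i j hij
    rw [hDeq j]
    exact subset_iUnion (fun j' : {j' : W // j' < j} => Φ (D j'.1)) ⟨i, hij⟩
  let E : Set K := ⋃ i : W, D i
  have hWc : #W ≤ 𝔠 := by
    have : #W = ℵ₁ := by simp [W]
    rw [this]
    exact Cardinal.aleph_one_le_continuum
  have hEc : #E ≤ 𝔠 := mk_iUnion_le' Cardinal.aleph0_le_continuum hWc _ hDc
  have hEcl : ∀ r : Fn K, r.dom ⊆ E → ∀ b ∈ M r, b.1.dom ⊆ E := by
    intro r hr b hb
    have h1 : ∀ x : r.dom, ∃ i : W, (x : K) ∈ D i := fun x => mem_iUnion.1 (hr x.2)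
    choose ι hι using h1
    have hrc : Countable r.dom := r.2.to_subtype
    obtain ⟨δ, hδ⟩ := BT.W_bdd (range ι) (countable_range ι)
    obtain ⟨δ', hδ'⟩ := BT.W_bdd {δ} (countable_singleton δ)
    have h2 : r.dom ⊆ D δ := fun x hx =>
      hDmono _ _ (hδ _ ⟨⟨x, hx⟩, rfl⟩) (Or.inl (hι ⟨x, hx⟩))
    have h3 : b.1.dom ⊆ Φ (D δ) := fun x hx =>
      Or.inr (mem_iUnion.2 ⟨⟨r, h2⟩, mem_iUnion.2 ⟨⟨b, hb⟩, hx⟩⟩)
    exact h3.trans ((hDmono _ _ (hδ' δ rfl)).trans (subset_iUnion D δ'))
  have hAsub : A ⊆ ⋃ r : {r : Fn K // r.dom ⊆ E}, M r.1 := by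
    intro a ha
    have h1 : (a.1.restr E).dom ⊆ E := Fn.dom_restr _ _
    obtain ⟨b, hb, hcomp⟩ := hM3 (a.1.restr E) a ha (Fn.le_restr _ _)
    have hb1 := hM1 _ hb
    have h2 : Compat a.1 b.1 := by
      apply Fn.compat
      intro x s t hs ht
      have hx : x ∈ E := hEcl _ h1 b hb (by
        change b.1.1 x ≠ none
        rw [ht]
        simp)
      have h3 : b.1.1 x = some s := hb1.2 x s (by rw [Fn.restr_apply _ hx]; exact hs)
      rw [ht] at h3
      exact (Option.some_injective _ h3).symm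
    have h4 : a = b := by
      by_contra hne
      exact hA a ha b hb1.1 hne (compat_prod.2 ⟨h2, hcomp⟩)
    rw [h4]
    exact mem_iUnion.2 ⟨⟨_, h1⟩, by rw [← h4] at hb ⊢; exact hb⟩
  exact (mk_le_mk_of_subset hAsub).trans (mk_iUnion_le' Cardinal.aleph0_le_continuum
    (mk_fn_le E hEc) _ fun r => hM2 r.1)

end Pool.Agent.R591.CS
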